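import Pool.Agent.helper7.CSG.SpecD

/-!
# Project csg: row VNK: compact subsets of the Fatou set are infinitely far from `JK`
-/

set_option autoImplicit false

open Complex Metric Set Filter Topology MeasureTheory
open Pool.Agent.helper98.ILF
open HY (UD T S hd UN RM)
open PM (DD rm cx pd cr hdf LP DP)
open CSS (SE SV it JJ IB)
open PL (INR PG DK ht tr DI CY hG hq)

noncomputable section

namespace P2S

theorem VNK (hVKF : VKF_stmt) (hVCF : VCF_stmt) (hTPT : PM.TPT_stmt) (hTIN : PM.TIN_stmt)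
    (hTKO : PM.TKO_stmt) : VNK_stmt := by
  intro f V hST Kc hKc hdis ρ hρ
  obtain ⟨K, hK1, hKa, hKb⟩ := hTKO
  have hK0 : 0 < K := by linarith
  obtain ⟨C, hC1, hC⟩ := hKb (max ρ 0) (le_max_right _ _) (max_lt hρ one_pos)
  have hC0 : 0 < C := by linarith
  obtain ⟨_, _, _, _, _, hnest, _, _⟩ := hVKF f V hST
  by_contra hcon
  push Not at hcon
  choose k hk y hy b hb hlt using hcon
  -- the point `b n` is in the component
  have hbW : ∀ n, b n ∈ VC f V (k n) (y n) := by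
    intro n
    by_contra hbW
    have h1 : pd (VC f V (k n) (y n)) (y n) (b n) = 1 := by
      unfold pd
      rw [if_neg]
      exact fun h => hbW h.2
    have h2 := hlt n
    rw [h1] at h2
    linarith
  have hbV : ∀ n, ∀ l ≤ k n, b n ∈ VK f V l := by
    intro n l hl
    exact hnest l (k n) hl ((hVCF f V hST (k n) (y n) (hST.Jv _ (hy n) (k n))).2.2.1 (hbW n))
  -- the comparison of the data at `b n` and at `y n`
  have hfacts : ∀ n, ‖y n - b n‖ ≤ C * cr (VC f V (k n) (b n)) (b n) ∧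
      cr (VC f V (k n) (b n)) (b n) ≤ C * cr (VC f V (k n) (b n)) (y n) ∧
      DD (VC f V (k n) (b n)) ∧ y n ∈ VC f V (k n) (b n) ∧ b n ∈ VC f V (k n) (b n) := by
    intro n
    obtain ⟨hDD, hmem, hsub, heq, _⟩ := hVCF f V hST (k n) (y n) (hST.Jv _ (hy n) (k n))
    have hW : VC f V (k n) (b n) = VC f V (k n) (y n) := heq (b n) (hbW n)
    rw [hW]
    have hpd : pd (VC f V (k n) (y n)) (b n) (y n) ≤ max ρ 0 := by
      rw [(hTPT _ hDD (b n) (hbW n) (y n) hmem (b n) (hbW n)).1]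
      exact (hlt n).le.trans (le_max_left _ _)
    obtain ⟨h1, _, h3⟩ := (hC _ hDD (b n) (hbW n)).1 (y n) hmem hpd
    exact ⟨h1, h3, hDD, hmem, hbW n⟩
  -- the conformal radii are bounded
  obtain ⟨w₁, _, _, hw₁, _⟩ := hST.two
  obtain ⟨M, hM⟩ := hKc.isBounded.exists_norm_le
  have hcr : ∀ n, cr (VC f V (k n) (b n)) (b n) ≤ K * (‖w₁‖ + M) := by
    intro n
    obtain ⟨hDD, hmem, _, _, _, hsub, _⟩ := hVCF f V hST (k n) (b n) (hbV n (k n) le_rfl)
    obtain ⟨hDD', hmem', hsub', _⟩ := hVCF f V hST 0 (b n) (hbV n 0 (Nat.zero_le _))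
    have h1 := (hTIN _ _ hDD hDD' (hsub 0 (Nat.zero_le _)) (b n) hmem).1
    have h2 := (hKa _ hDD' (b n) hmem').1
    have h3 : cr (VC f V 0 (b n)) (b n) / K ≤ ‖w₁ - b n‖ := by
      by_contra hlt'
      push Not at hlt'
      have h4 : w₁ ∈ ball (b n) (cr (VC f V 0 (b n)) (b n) / K) := by
        rw [mem_ball, dist_eq_norm]
        exact hlt'
      exact hw₁ (hsub' (h2 h4))
    have h5 : ‖w₁ - b n‖ ≤ ‖w₁‖ + M := (norm_sub_le _ _).trans (by linarith [hM (b n) (hb n)])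
    have h6 : cr (VC f V 0 (b n)) (b n) ≤ K * (‖w₁‖ + M) := by
      rw [div_le_iff₀ hK0] at h3
      nlinarith
    exact h1.trans h6
  -- convergent subsequences
  have hyb : ∀ n, y n ∈ closedBall (0 : ℂ) (C * (K * (‖w₁‖ + M)) + M) := by
    intro n
    rw [mem_closedBall, dist_zero_right]
    have h1 := (hfacts n).1
    have h2 := mul_le_mul_of_nonneg_left (hcr n) hC0.le
    have h3 : ‖y n‖ ≤ ‖y n - b n‖ + ‖b n‖ := by
      have := norm_add_le (y n - b n) (b n)
      rwa [sub_add_cancel] at this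
    linarith [hM (b n) (hb n)]
  obtain ⟨a, _, φ, hφ, hlim⟩ := (isCompact_closedBall (0 : ℂ) _).tendsto_subseq hyb
  obtain ⟨b₀, hb₀, ψ, hψ, hlimb⟩ := hKc.tendsto_subseq (fun n => hb (φ n))
  have hlimy : Tendsto (fun n => y (φ (ψ n))) atTop (𝓝 a) := hlim.comp hψ.tendsto_atTop
  have hlimb' : Tendsto (fun n => b (φ (ψ n))) atTop (𝓝 b₀) := hlimb
  have hθ : ∀ n, n ≤ φ (ψ n) := fun n => (hψ.id_le n).trans (hφ.id_le _)
  have haJ : a ∈ JJ f := hST.Jc.mem_of_tendsto hlimy (Eventually.of_forall fun n => (hy _).1)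
  by_cases hsmall : ∃ c : ℝ, 0 < c ∧ ∀ᶠ n in atTop, c ≤ cr (VC f V (k (φ (ψ n))) (b (φ (ψ n)))) (b (φ (ψ n)))
  · obtain ⟨c, hc, hcm⟩ := hsmall
    have hr : 0 < c / (C * K) := by positivity
    -- balls around the points
    have hball : ∀ᶠ n in atTop, ball (y (φ (ψ n))) (c / (C * K)) ⊆ VK f V (k (φ (ψ n))) := by
      filter_upwards [hcm] with n hn
      obtain ⟨_, h2, h3, h4, _⟩ := hfacts (φ (ψ n))
      have h5 := (hKa _ h3 (y (φ (ψ n))) h4).1
      have h6 : c / (C * K) ≤ cr (VC f V (k (φ (ψ n))) (b (φ (ψ n)))) (y (φ (ψ n))) / K := by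
        have h7 : c ≤ C * cr (VC f V (k (φ (ψ n))) (b (φ (ψ n)))) (y (φ (ψ n))) := hn.trans h2
        rw [div_le_div_iff₀ (by positivity) hK0]
        nlinarith [mul_le_mul_of_nonneg_right h7 hK0.le]
      exact ((ball_subset_ball h6).trans h5).trans
        (hVCF f V hST (k (φ (ψ n))) (b (φ (ψ n))) (hbV _ _ le_rfl)).2.2.1
    have hsub : ball a (c / (C * K) / 2) ⊆ KK f V := by
      intro z hz l
      have h1 : ∀ᶠ n in atTop, dist (y (φ (ψ n))) a < c / (C * K) / 2 :=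
        (Metric.tendsto_nhds.1 hlimy) _ (by positivity)
      obtain ⟨n, hn1, hn2, hn3⟩ := (h1.and (hball.and (eventually_ge_atTop l))).exists
      have h2 : l ≤ k (φ (ψ n)) := (hn3.trans (hθ n)).trans (hk _)
      refine hnest l _ h2 (hn2 ?_)
      rw [mem_ball] at hz ⊢
      have h3 : dist z (y (φ (ψ n))) ≤ dist z a + dist a (y (φ (ψ n))) := dist_triangle _ _ _
      rw [dist_comm a] at h3
      linarith
    exact Set.disjoint_left.1 hST.Jn haJ (mem_interior.2 ⟨_, hsub, isOpen_ball, mem_ball_self (by positivity)⟩)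
  · push Not at hsmall
    have hab : a = b₀ := by
      by_contra hne
      have hd : 0 < dist a b₀ := dist_pos.2 hne
      set ε : ℝ := dist a b₀ / 4 with hε
      have hε0 : 0 < ε := by positivity
      have h1 : ∀ᶠ n in atTop, dist (y (φ (ψ n))) a < ε := (Metric.tendsto_nhds.1 hlimy) _ hε0
      have h2 : ∀ᶠ n in atTop, dist (b (φ (ψ n))) b₀ < ε := (Metric.tendsto_nhds.1 hlimb') _ hε0
      have h3 := hsmall (ε / C) (by positivity)
      obtain ⟨n, hn1, hn2, hn3⟩ := (h3.and_eventually (h1.and h2)).exists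
      have h4 := (hfacts (φ (ψ n))).1
      have h5 : ‖y (φ (ψ n)) - b (φ (ψ n))‖ < ε := by
        have h6 : C * cr (VC f V (k (φ (ψ n))) (b (φ (ψ n)))) (b (φ (ψ n))) < C * (ε / C) :=
          mul_lt_mul_of_pos_left hn1 hC0
        have h7 : C * (ε / C) = ε := by field_simp
        linarith
      rw [← dist_eq_norm] at h5
      have h6 : dist a b₀ ≤ dist a (y (φ (ψ n))) + dist (y (φ (ψ n))) (b (φ (ψ n))) + dist (b (φ (ψ n))) b₀ :=
        dist_triangle4 _ _ _ _
      rw [dist_comm a (y (φ (ψ n)))] at h6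
      have h7 : dist a b₀ = 4 * ε := by rw [hε]; ring
      linarith
    exact Set.disjoint_left.1 hdis hb₀ (hab ▸ haJ)

end P2S
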